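import Pool.Agent.P.MP_bf0464_al.Br.Old
import Pool.Agent.Lib.AG.ChB
import Pool.Agent.Lib.AG.ChD
import Pool.Agent.Lib.AG.ChF

/-! Existence of the Chevalley form over the integers, and comparison with a weak Chevalley
basis in good characteristic. -/

namespace Pool.Agent.AG

open Set Pool.Agent.P.Bf04.Old TensorProduct

universe u

variable {ι X Y : Type} [Fintype ι] [AddCommGroup X] [AddCommGroup Y]
  (P : RootDatum ι X Y) [P.IsReduced] (b : P.Base) {r : ℕ} (c : Module.Basis (Fin r) ℤ Y)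

section normal

variable {P c} {A : Type} [LieRing A] [LieAlgebra ℂ A] {h : Y →+ A} {e : ι → A}

omit [Fintype ι] [P.IsReduced] in
private theorem h_eq (y : Y) : h y = ∑ a, ((c.repr y a : ℤ) : ℂ) • h (c a) := by
  conv_lhs => rw [← c.sum_repr y]
  simp only [map_sum, map_zsmul, Int.cast_smul_eq_zsmul]

omit [P.IsReduced] in
private theorem comb_zero (H : WC P c ℂ h e) {y : Y} {m : ι → ℤ}
    (h0 : h y + ∑ i, m i • e i = 0) : y = 0 ∧ m = 0 := by
  have := Fintype.linearIndependent_iff.1 H.li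
    (Sum.elim (fun a => ((c.repr y a : ℤ) : ℂ)) fun i => (m i : ℂ)) (by
      rw [Fintype.sum_sum_type]
      simpa only [Sum.elim_inl, Sum.elim_inr, ← h_eq, Int.cast_smul_eq_zsmul ℂ (m _)] using h0)
  refine ⟨c.repr.injective (Finsupp.ext fun a => ?_), funext fun i => ?_⟩
  · simpa using this (.inl a)
  · simpa using this (.inr i)

include b in
/-- Normalisation of the structure constants. -/
private theorem exists_norm (H : WC P c ℂ h e) : ∃ e' : ι → A, WC P c ℂ h e' ∧
    ∀ i j l, P.root i + P.root j = P.root l →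
      ⁅e' i, e' j⁆ = (P.chainBotCoeff i j + 1) • e' l ∨
        ⁅e' i, e' j⁆ = -((P.chainBotCoeff i j + 1) • e' l) := by
  classical
  obtain ⟨s, s1, s2⟩ := H.unique H.flip b (nz_of_charZero b)
  let := P.indexNeg
  have hn : ∀ i, P.root (-i) = -P.root i := fun i => by simp
  have s3 : ∀ i, s i * s (-i) = 1 := fun i => by
    have h0 : (-h) (P.coroot i) ≠ 0 := fun e0 => P.ne_zero' i (comb_zero H (m := 0)
      (by simpa using e0)).1
    exact Units.ext (smul_left_injective ℂ h0 ((s1 i _ (hn i)).trans (one_smul ℂ _).symm))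
  have hρ : ∀ i, ∃ ρ : ℂˣ, ρ * ρ * s i = 1 := fun i => by
    obtain ⟨z, hz⟩ := IsAlgClosed.exists_eq_mul_self (((s i)⁻¹ : ℂˣ) : ℂ)
    have h0 : z ≠ 0 := fun e0 => (s i)⁻¹.ne_zero (by rw [hz, e0, mul_zero])
    refine ⟨Units.mk0 z h0, ?_⟩
    rw [show Units.mk0 z h0 * Units.mk0 z h0 = (s i)⁻¹ from Units.ext hz.symm, inv_mul_cancel]
  choose ρ hρ using hρ
  let t : ι → ℂˣ := fun i => if b.IsPos i then ρ i else (ρ (-i))⁻¹
  have t1 : ∀ i, t i * t (-i) = 1 := fun i => by
    by_cases hi : b.IsPos i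
    · have : ¬ b.IsPos (-i) := fun h' => (RootPairing.Base.IsPos.neg_iff_not b i).1 h' hi
      simp only [t, if_pos hi, if_neg this, neg_neg, mul_inv_cancel]
    · have : b.IsPos (-i) := (RootPairing.Base.IsPos.neg_iff_not b i).2 hi
      simp only [t, if_neg hi, if_pos this, inv_mul_cancel]
  have t2 : ∀ i, t i * t i * s i = 1 := fun i => by
    by_cases hi : b.IsPos i
    · simp only [t, if_pos hi, hρ]
    · simp only [t, if_neg hi]
      rw [eq_inv_of_mul_eq_one_left (s3 i), ← mul_inv, ← mul_inv, hρ, inv_one]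
  have H' := H.scale t fun i j hj => by
    rw [P.root_eq_neg_iff.1 hj]
    exact t1 i
  refine ⟨_, H', fun i j l hl => ?_⟩
  obtain ⟨N, hN⟩ := H.e_e i j l hl
  have e1 := s2 i j l N hl hN
  have u : ∀ i, (t (-i) : ℂ) = t i * s i := fun i => by
    rw [← Units.val_mul, eq_inv_of_mul_eq_one_right (t1 i),
      eq_inv_of_mul_eq_one_right ((mul_assoc _ _ _).symm.trans (t2 i))]
  have v : ∀ i, (t i : ℂ) * t i * s i = 1 := fun i => by
    rw [← Units.val_mul, ← Units.val_mul, t2, Units.val_one]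
  have e2 : ⁅(t i : ℂ) • e i, (t j : ℂ) • e j⁆ = (t i * t j * N * t (-l)) • (t l : ℂ) • e l := by
    rw [smul_lie, lie_smul, hN, u]
    simp only [smul_smul]
    congr 1
    linear_combination (-(t i * t j * N)) * v l
  have e3 : ⁅(t (-i) : ℂ) • e (-i), (t (-j) : ℂ) • e (-j)⁆ =
      (-(t i * t j * N * t (-l))) • (t (-l) : ℂ) • e (-l) := by
    change ⁅(s i : ℂ) • -e (-i), (s j : ℂ) • -e (-j)⁆ = N • (s l : ℂ) • -e (-l) at e1
    simp only [smul_neg, neg_lie, lie_neg, neg_neg] at e1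
    rw [u, u, u, mul_smul, mul_smul (t j : ℂ), smul_lie, lie_smul, e1]
    simp only [smul_neg, smul_smul, ← neg_smul]
    congr 1
    linear_combination (t i * t j * N * s l) * v l
  have e4 := H'.mul_opp (hn i) (hn j) (hn l) hl e2 e3
  rw [mul_neg, neg_inj, ← sq, sq_eq_sq_iff_eq_or_eq_neg] at e4
  rw [e2]
  refine e4.imp (fun e5 => ?_) fun e5 => ?_
  · rw [e5, Nat.cast_smul_eq_nsmul]
  · rw [e5, neg_smul, Nat.cast_smul_eq_nsmul]

end normal

include b c in
theorem exists_chevalley :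
    ∃ (L : Type) (_ : LieRing L) (h : Y →+ L) (e : ι → L), IsChevalley P h e := by
  classical
  obtain ⟨m, _, _, h, e₀, f₀, hG, hli⟩ := exists_gen b c
  let : LieRing (Matrix m m ℂ) := LieRing.ofAssociativeRing
  obtain ⟨e₁, H₁⟩ := hG.exists_wc b c hli
  obtain ⟨e, H, he⟩ := exists_norm b H₁
  let W : Submodule ℤ (Matrix m m ℂ) := Submodule.span ℤ (range h ∪ range e)
  have mh : ∀ y, h y ∈ W := fun y => Submodule.subset_span (Or.inl ⟨y, rfl⟩)
  have me : ∀ i, e i ∈ W := fun i => Submodule.subset_span (Or.inr ⟨i, rfl⟩)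
  have gen : ∀ x ∈ range h ∪ range e, ∀ x' ∈ range h ∪ range e, ⁅x, x'⁆ ∈ W := by
    rintro _ (⟨y, rfl⟩ | ⟨i, rfl⟩) _ (⟨y', rfl⟩ | ⟨j, rfl⟩)
    · rw [H.h_h]
      exact W.zero_mem
    · rw [H.h_e]
      exact W.smul_mem _ (me j)
    · rw [← lie_skew, H.h_e]
      exact W.neg_mem (W.smul_mem _ (me i))
    · by_cases h0 : P.root i + P.root j = 0
      · rw [H.e_neg i j (eq_neg_of_add_eq_zero_right h0)]
        exact mh _
      by_cases h1 : P.root i + P.root j ∈ range P.root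
      · obtain ⟨l, hl⟩ := h1
        rcases he i j l hl.symm with e | e <;> rw [e]
        exacts [nsmul_mem (me l) _, W.neg_mem (nsmul_mem (me l) _)]
      · rw [H.e_zero i j h0 h1]
        exact W.zero_mem
  let L : LieSubalgebra ℤ (Matrix m m ℂ) :=
    { W with
      lie_mem' := fun {x x'} hx hx' => by
        refine Submodule.span_induction₂ (p := fun x x' _ _ => ⁅x, x'⁆ ∈ W)
          (fun x x' hx hx' => gen x hx x' hx') ?_ ?_ ?_ ?_ ?_ ?_ hx hx'
        · intro x _; rw [zero_lie]; exact W.zero_mem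
        · intro x _; rw [lie_zero]; exact W.zero_mem
        · intro x y z _ _ _ h1 h2; rw [add_lie]; exact W.add_mem h1 h2
        · intro x y z _ _ _ h1 h2; rw [lie_add]; exact W.add_mem h1 h2
        · intro a x y _ _ h1; rw [zsmul_lie]; exact W.smul_mem _ h1
        · intro a x y _ _ h1; rw [lie_zsmul]; exact W.smul_mem _ h1 }
  let h' : Y →+ L := h.codRestrict W.toAddSubgroup mh
  let e' : ι → L := fun i => ⟨e i, me i⟩
  have val : ∀ x : Y × (ι → ℤ), ((h' x.1 + ∑ i, x.2 i • e' i : L) : Matrix m m ℂ) =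
      h x.1 + ∑ i, x.2 i • e i := fun x => by
    change L.toSubmodule.subtype (h' x.1 + ∑ i, x.2 i • e' i) = _
    simp only [map_add, map_sum, map_zsmul]
    rfl
  refine ⟨L, inferInstance, h', e', ⟨fun x x' hx => ?_, fun x => ?_⟩,
    fun y y' => Subtype.ext (H.h_h y y'), fun y i => Subtype.ext (H.h_e y i),
    fun i j hj => Subtype.ext (H.e_neg i j hj),
    fun i j l hl => (he i j l hl).imp (fun e => Subtype.ext e) fun e => Subtype.ext e,
    fun i j h0 h1 => Subtype.ext (H.e_zero i j h0 h1)⟩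
  · have e1 := (val x).symm.trans ((congrArg Subtype.val hx).trans (val x'))
    obtain ⟨e2, e3⟩ := comb_zero H (y := x.1 - x'.1) (m := x.2 - x'.2) (by
      simp only [map_sub, Pi.sub_apply, sub_smul, Finset.sum_sub_distrib]
      rw [sub_add_sub_comm, e1, sub_self])
    exact Prod.ext (sub_eq_zero.1 e2) (sub_eq_zero.1 e3)
  · suffices ∀ z ∈ W, ∃ x : Y × (ι → ℤ), h x.1 + ∑ i, x.2 i • e i = z by
      obtain ⟨x', hx'⟩ := this x.1 x.2
      exact ⟨x', Subtype.ext ((val x').trans hx')⟩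
    intro z hz
    induction hz using Submodule.span_induction with
    | mem z hz =>
      rcases hz with ⟨y, rfl⟩ | ⟨i, rfl⟩
      · exact ⟨(y, 0), by simp⟩
      · exact ⟨(0, Pi.single i 1), by simp [Pi.single_apply]⟩
    | zero => exact ⟨0, by simp⟩
    | add z z' _ _ h1 h2 =>
      obtain ⟨x, rfl⟩ := h1
      obtain ⟨x', rfl⟩ := h2
      exact ⟨x + x', by simp only [Prod.fst_add, Prod.snd_add, map_add, Pi.add_apply, add_smul,
        Finset.sum_add_distrib]; abel⟩
    | smul a z _ h1 =>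
      obtain ⟨x, rfl⟩ := h1
      exact ⟨a • x, by simp only [Prod.smul_fst, Prod.smul_snd, map_zsmul, Pi.smul_apply,
        smul_assoc, smul_add, Finset.smul_sum]⟩

private theorem zsmul_lie' {L : Type*} [LieRing L] (a : ℤ) (x y : L) : ⁅a • x, y⁆ = a • ⁅x, y⁆ :=
  zsmul_lie x y a

private theorem lie_zsmul' {L : Type*} [LieRing L] (a : ℤ) (x y : L) : ⁅x, a • y⁆ = a • ⁅x, y⁆ :=
  lie_zsmul x y a

omit [P.IsReduced] in
private theorem exists_basis {L : Type} [LieRing L] {h : Y →+ L} {e : ι → L}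
    (hL : IsChevalley P h e) : ∃ B : Module.Basis (Fin r ⊕ ι) ℤ L,
      ∀ a, B a = Sum.elim (fun a => h (c a)) e a := by
  classical
  let φ : (Y × (ι → ℤ)) →ₗ[ℤ] L := h.toIntLinearMap.coprod (Fintype.linearCombination ℤ e)
  refine ⟨(c.prod (Pi.basisFun ℤ ι)).map (LinearEquiv.ofBijective φ hL.basis), ?_⟩
  rintro (a | i) <;> simp [φ]

theorem WC.exists_form {k g : Type u} [Field k] [LieRing g] [LieAlgebra k g] {H : Y →+ g}
    {E : ι → g} (hw : WC P c k H E) (hs : Submodule.span k (range H ∪ range E) = ⊤)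
    (hz : NZ P b k) :
    ∃ (L : Type) (_ : LieRing L) (h : Y →+ L) (e : ι → L) (f : L →ₗ⁅ℤ⁆ g), IsChevalley P h e ∧
      IsBaseChange k (f : L →ₗ[ℤ] g) ∧ (∀ y, f (h y) = H y) ∧ ∀ i, ∃ s : k, f (e i) = s • E i := by
  obtain ⟨L, _, h, e, hL⟩ := exists_chevalley P b c
  obtain ⟨B, hB⟩ := exists_basis P c hL
  let j : L →+ k ⊗[ℤ] L := (TensorProduct.mk ℤ k L 1).toAddMonoidHom
  have hj : ∀ x y, ⁅j x, j y⁆ = j ⁅x, y⁆ := fun x y => by
    change ⁅(1 : k) ⊗ₜ[ℤ] x, (1 : k) ⊗ₜ[ℤ] y⁆ = (1 : k) ⊗ₜ[ℤ] ⁅x, y⁆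
    rw [LieAlgebra.ExtendScalars.bracket_tmul, mul_one]
  have ee : ∀ i i' l, P.root i + P.root i' = P.root l → ∃ N : ℤ, ⁅e i, e i'⁆ = N • e l :=
    fun i i' l hl => (hL.e_e i i' l hl).elim (fun e => ⟨_, e.trans (natCast_zsmul _ _).symm⟩)
      fun e => ⟨-((P.chainBotCoeff i i' + 1 : ℕ) : ℤ), by rw [e, neg_smul, natCast_zsmul]⟩
  have W : WC P c k (j.comp h) fun i => j (e i) := by
    refine ⟨?_, fun y y' => (hj _ _).trans (by rw [hL.h_h, map_zero]),
      fun y i => (hj _ _).trans (by rw [hL.h_e, map_zsmul]),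
      fun i i' hi => (hj _ _).trans (by rw [hL.e_neg i i' hi]; rfl), fun i i' l hl => ?_,
      fun i i' h0 h1 => (hj _ _).trans (by rw [hL.e_zero i i' h0 h1, map_zero])⟩
    · refine (congrArg (fun v => LinearIndependent k v) (funext fun a => ?_)).mp
        (B.baseChange k).linearIndependent
      rw [Module.Basis.baseChange_apply, hB]
      rcases a with a | a <;> rfl
    · obtain ⟨N, hN⟩ := ee i i' l hl
      exact ⟨N, by rw [hj, hN, map_zsmul, Int.cast_smul_eq_zsmul]⟩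
  obtain ⟨s, s1, s2⟩ := W.unique hw b hz
  let v : Fin r ⊕ ι → g := Sum.elim (fun a => H (c a)) fun i => (s i : k) • E i
  let f : L →ₗ[ℤ] g := B.constr ℤ v
  have fe : ∀ i, f (e i) = (s i : k) • E i := fun i =>
    (congrArg f (hB (.inr i)).symm).trans (B.constr_basis ℤ v _)
  have fh : ∀ y, f (h y) = H y := fun y => LinearMap.congr_fun
    (c.ext (f₁ := f ∘ₗ h.toIntLinearMap) (f₂ := H.toIntLinearMap) fun a =>
      (congrArg f (hB (.inl a)).symm).trans (B.constr_basis ℤ v _)) y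
  have he : ∀ y i, f ⁅h y, e i⁆ = ⁅f (h y), f (e i)⁆ := fun y i => by
    rw [hL.h_e, map_zsmul, fe, fh, lie_smul, hw.h_e, smul_comm]
  have hf : ∀ x y, f ⁅x, y⁆ = ⁅f x, f y⁆ := fun x y => by
    refine LinearMap.congr_fun₂ (LinearMap.ext_basis B B
      (B := (LinearMap.mk₂ ℤ (fun x y : L => ⁅x, y⁆) add_lie zsmul_lie' lie_add
        lie_zsmul').compr₂ f)
      (B' := (LinearMap.mk₂ ℤ (fun x y : g => ⁅x, y⁆) add_lie zsmul_lie' lie_add
        lie_zsmul').compl₁₂ f f) fun a a' => ?_) x y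
    change f ⁅B a, B a'⁆ = ⁅f (B a), f (B a')⁆
    rw [hB, hB]
    rcases a with a | i <;> rcases a' with a' | i' <;> simp only [Sum.elim_inl, Sum.elim_inr]
    · rw [hL.h_h, fh, fh, hw.h_h, map_zero]
    · exact he _ _
    · rw [← lie_skew, map_neg, he, lie_skew]
    · rw [fe, fe]
      by_cases h0 : P.root i + P.root i' = 0
      · have h1 := eq_neg_of_add_eq_zero_right h0
        rw [hL.e_neg i i' h1, fh, smul_lie, lie_smul, hw.e_neg i i' h1, smul_smul, ← Units.val_mul,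
          s1 i i' h1]
      by_cases h1 : P.root i + P.root i' ∈ range P.root
      · obtain ⟨l, hl⟩ := h1
        obtain ⟨N, hN⟩ := ee i i' l hl.symm
        rw [s2 i i' l N hl.symm (by rw [hj, hN, map_zsmul, Int.cast_smul_eq_zsmul]), hN, map_zsmul,
          fe, Int.cast_smul_eq_zsmul]
      · rw [hL.e_zero i i' h0 h1, smul_lie, lie_smul, hw.e_zero i i' h0 h1, map_zero, smul_zero,
          smul_zero]
  have li : LinearIndependent k v := by
    convert hw.li.units_smul (Sum.elim 1 s) using 1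
    funext a
    rcases a with a | a
    · exact (one_smul kˣ _).symm
    · rfl
  have sp : ⊤ ≤ Submodule.span k (range v) := by
    rw [← hs, Submodule.span_le]
    rintro _ (⟨y, rfl⟩ | ⟨i, rfl⟩)
    · rw [← c.sum_repr y, map_sum]
      exact sum_mem fun a _ => by
        rw [map_zsmul]
        exact zsmul_mem (Submodule.subset_span (mem_range_self (f := v) (.inl a))) _
    · exact (Submodule.smul_mem_iff _ (s i).ne_zero).1 (Submodule.subset_span ⟨.inr i, rfl⟩)
  refine ⟨L, inferInstance, h, e, ⟨f, fun {x y} => hf x y⟩, hL, ?_, fh, fun i => ⟨_, fe i⟩⟩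
  let φ := (B.baseChange k).equiv (Module.Basis.mk li sp) (Equiv.refl _)
  refine IsBaseChange.of_equiv φ fun x => LinearMap.congr_fun
    (B.ext (f₁ := φ.toLinearMap.restrictScalars ℤ ∘ₗ TensorProduct.mk ℤ k L 1) (f₂ := f)
      fun a => ?_) x
  change φ (1 ⊗ₜ B a) = B.constr ℤ v (B a)
  rw [← Module.Basis.baseChange_apply, Module.Basis.equiv_apply, B.constr_basis]
  simp

end Pool.Agent.AG
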