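import Pool.Agent.P.MP_bf0464_al.Br.Old
import Pool.Agent.Lib.AG.Weyl
import Pool.Agent.Lib.AG.LieG

/-! The hypotheses on the group in terms of its root datum. -/

namespace Pool.Agent.AG

open Set Matrix Pool.Agent.P.Bf04.Old

attribute [local instance 100] LieRing.ofAssociativeRing

universe u

variable {k : Type u} [Field k] [IsAlgClosed k] [Fact (ringChar k).Prime] {n : ℕ}
  {G T : Subgroup (Gl n k)} {τ : TD T} (D : Pn G τ)

theorem good_cj {p : ℕ} (h : Good G T p) {g : Gl n k} (hg : g ∈ G) : Good G (cj g T) p := by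
  let e : T ≃* cj g T := (MulAut.conj g).subgroupMap T
  let Φ : (cj g T →* kˣ) →* (T →* kˣ) :=
    ⟨⟨fun γ => γ.comp e.toMonoidHom, rfl⟩, fun _ _ => rfl⟩
  have hΦ : Function.Injective Φ := fun γ γ' h => MonoidHom.ext fun t => by
    obtain ⟨s, rfl⟩ := e.surjective t
    exact DFunLike.congr_fun h s
  have hr : ∀ γ ∈ roots G (cj g T), Φ γ ∈ roots G T := by
    rintro γ ⟨h1, A, hA, h0, hw⟩
    have R := isRep_Ad (⊤ : Subgroup (Gl n k))
    refine ⟨fun h => h1 (hΦ (h.trans (map_one Φ).symm)), Ad g⁻¹ A, ?_, fun h => h0 ?_, fun t => ?_⟩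
    · simpa only [cj_eq_self (G.inv_mem hg)] using mem_lie_cj (g := g⁻¹) hA
    · rw [← R.apply_inv (g := g) trivial A, h, map_zero]
    · have h2 : Ad (g * t.1 * g⁻¹) A = (γ (e t) : k) • A := (Ad_apply _ _).trans (hw (e t))
      rw [← Ad_apply, ← R.mul_apply trivial trivial, show t.1 * g⁻¹ = g⁻¹ * (g * t.1 * g⁻¹) by group,
        R.mul_apply trivial trivial, h2, map_smul]
      rfl
  intro S hS x hx hxp
  have h1 : Φ x ∈ Subgroup.closure (roots G T) :=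
    (Subgroup.closure_le ((Subgroup.closure (roots G T)).comap Φ)).2
      (fun γ hγ => Subgroup.subset_closure (hr γ hγ)) hx
  have h2 := h (Φ '' S) (by rintro _ ⟨γ, hγ, rfl⟩; exact hr γ (hS hγ)) _ h1
    (by rw [← MonoidHom.map_closure]; exact ⟨_, hxp, map_pow Φ x p⟩)
  rw [← MonoidHom.map_closure] at h2
  obtain ⟨x', hx', e'⟩ := h2
  rwa [← hΦ e']

theorem relIndex_cj {g : Gl n k} (hg : g ∈ G) :
    (cj g T).relIndex (G ⊓ Subgroup.normalizer (cj g T : Set (Gl n k))) =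
      T.relIndex (G ⊓ Subgroup.normalizer (T : Set (Gl n k))) := by
  have hi : Function.Bijective (MulAut.conj g).toMonoidHom := (MulAut.conj g).bijective
  rw [← Subgroup.relIndex_map_map_of_injective T _ hi.1, Subgroup.map_inf _ _ _ hi.1,
    Subgroup.map_normalizer_eq_of_bijective T hi]
  exact congrArg (fun K => (cj g T).relIndex (K ⊓ _)) (cj_eq_self hg).symm

private theorem refl' (i : D.ι) : ∃ g ∈ G, ∃ a a', τ.Act g a a' ∧
    ∀ z, a' z = z - (D.P.root i ⬝ᵥ z) • D.P.coroot i := by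
  obtain ⟨g, hg, a, a', h, e⟩ := D.refl i
  refine ⟨g, hg, a, a', h, h.coreflection ?_ fun v => ?_⟩
  · rw [← D.pair, D.P.root_coroot_two]
  · rw [e, RootPairing.reflection_apply, ← D.pair]
    rfl

private theorem dot_two (i : D.ι) : D.P.root i ⬝ᵥ D.P.coroot i = 2 := by
  rw [← D.pair, D.P.root_coroot_two]

theorem Pn.co_coroot_mem (i : D.ι) (a : kˣ) : τ.co (D.P.coroot i) a ∈ ⁅G, G⁆ := by
  obtain ⟨g, hg, _, a', h, e⟩ := refl' D i
  obtain ⟨b, hb⟩ := IsAlgClosed.exists_eq_mul_self (a : k)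
  have hb0 : b ≠ 0 := fun h => a.ne_zero (by rw [hb, h, mul_zero])
  obtain rfl : a = Units.mk0 b hb0 * Units.mk0 b hb0 := Units.ext hb
  have h1 := h.co (D.P.coroot i) (Units.mk0 b hb0)
  rw [e, dot_two, show D.P.coroot i - (2 : ℤ) • D.P.coroot i = -D.P.coroot i by module,
    τ.co_neg] at h1
  have h2 := Subgroup.commutator_mem_commutator (D.φ_di i (Units.mk0 b hb0) ▸ D.φ_mem i _) hg
  rw [τ.co_mul]
  convert h2 using 1
  rw [commutatorElement_def, show ∀ a : Gl n k, a * g * a⁻¹ * g⁻¹ = a * (g * a * g⁻¹)⁻¹ from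
    fun a => by group, h1, inv_inv]

private theorem zpow_inj {m m' : ℤ} (h : ∀ a : kˣ, a ^ m = a ^ m') : m = m' := by
  by_contra hne
  have : NeZero (m - m').natAbs := ⟨by omega⟩
  have : Finite kˣ := Finite.of_surjective (rootsOfUnity (m - m').natAbs k).subtype fun a =>
    ⟨⟨a, by rw [mem_rootsOfUnity, pow_natAbs_eq_one, _root_.zpow_sub, h, mul_inv_cancel]⟩, rfl⟩
  have : Finite {a : k // a ≠ 0} := .of_equiv _ unitsEquivNeZero
  exact ((finite_singleton (0 : k)).infinite_compl).not_finite (finite_coe_iff.1 this)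

/-- The cocharacters with values in a subgroup. -/
private def coL (τ : TD T) (H : Subgroup (Gl n k)) : AddSubgroup τ.X where
  carrier := {z | ∀ a, τ.co z a ∈ H}
  add_mem' hz hz' a := by rw [τ.co_add]; exact H.mul_mem (hz a) (hz' a)
  zero_mem' a := by rw [τ.co_zero]; exact H.one_mem
  neg_mem' hz a := by rw [τ.co_neg]; exact H.inv_mem (hz a)

private theorem exists_reg (hG : Red G) (hT : MaxTor G T) (L : AddSubgroup τ.X)
    (h : ∀ i, D.P.coroot i ∈ L) : ∃ y ∈ L, τ.Z G y = T := by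
  obtain ⟨y, hy⟩ := exists_generic (s := (univ : Set D.ι)) finite_univ
    (fun i => (rt D.P i).comp L.subtype) fun i _ e => by
      have := DFunLike.congr_fun e ⟨_, h i⟩
      change D.P.toLinearMap (D.P.root i) (D.P.coroot i) = 0 at this
      rw [D.P.root_coroot_two] at this
      exact two_ne_zero this
  refine ⟨y, y.2, τ.Z_eq_of_Rt hG hT fun x hx => ?_⟩
  rw [← D.range_root] at hx
  obtain ⟨i, rfl⟩ := hx
  rw [← D.pair]
  exact hy i trivial

theorem Pn.eq_coroot (hG : Red G) (hT : MaxTor G T) {H T' : Subgroup (Gl n k)} (hH : H ≤ G)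
    (h1 : T' ≤ T) (h2 : ∀ i a, τ.co (D.P.coroot i) a ∈ T') {f : kˣ → Gl n k}
    (hf : f ∈ coroots H T') : ∃ i, f = τ.co (D.P.coroot i) := by
  obtain ⟨hf, α, ⟨hα, A, hA, hA0, hw⟩, h3, g, hg, hgt⟩ := hf
  obtain ⟨y, rfl⟩ := τ.all_co f ⟨fun a => h1 (hf.1 a), hf.2.1, hf.2.2⟩
  have R := isRep_Ad (⊤ : Subgroup (Gl n k))
  obtain ⟨c, hc, hcA⟩ := τ.lie_comp (Nm.of_le hT.1.1) (lie_mono hH hA)
  have hW : Stab T Ad (wV Ad T' α) := fun s hs w hw' t => by
    rw [← R.mul_apply trivial trivial, τ.dg.comm (h1 t.2) hs, R.mul_apply trivial trivial, hw' t,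
      map_smul]
  obtain ⟨x, hx⟩ : ∃ x, c x ≠ 0 := by
    by_contra hn
    push Not at hn
    rw [show c = 0 from Finsupp.ext hn, Finsupp.sum_zero_index] at hcA
    exact hA0 hcA.symm
  have hxα : ∀ t : T', τ.χ x ⟨t.1, h1 t.2⟩ = α t := fun t => by
    have e1 := τ.comp_mem hW (fun x => (hc x).2)
      (by rw [hcA]; exact fun t => (Ad_apply _ _).trans (hw t)) x t
    have e2 := (hc x).2 ⟨t.1, h1 t.2⟩
    exact Units.ext (smul_left_injective k hx (e2.symm.trans e1))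
  have hx0 : x ≠ 0 := by
    rintro rfl
    refine hα (MonoidHom.ext fun t => ?_)
    rw [← hxα, τ.χ_zero]
    rfl
  obtain ⟨i, rfl⟩ : x ∈ range D.P.root := D.range_root ▸ ⟨hx0, c x, (hc x).1, hx, (hc x).2⟩
  have hco : ∀ z (hz : z ∈ coL τ T') a, α ⟨τ.co z a, hz a⟩ = a ^ (D.P.root i ⬝ᵥ z) :=
    fun z hz a => (hxα _).symm.trans (τ.pair _ z a)
  have hy2 : D.P.root i ⬝ᵥ y = 2 := zpow_inj (k := k) fun a => by
    rw [← hco y hf.1 a, h3, zpow_ofNat]
  have m1 : ∀ s ∈ T', g * s * g⁻¹ ∈ T' := fun s hs => by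
    rw [hgt ⟨s, hs⟩]
    exact T'.mul_mem hs (T'.inv_mem (hf.1 _))
  have m2 : ∀ s ∈ T', g⁻¹ * s * g ∈ T' := fun s hs => by
    have e1 := hgt (⟨s, hs⟩ * ⟨_, hf.1 (α ⟨s, hs⟩)⟩⁻¹)
    rw [map_mul, map_inv, h3, show α ⟨s, hs⟩ * (α ⟨s, hs⟩ ^ 2)⁻¹ = (α ⟨s, hs⟩)⁻¹ by group,
      τ.co_inv] at e1
    have e2 : g⁻¹ * s * g = s * (τ.co y (α ⟨s, hs⟩))⁻¹ := by
      have e3 : g * (s * (τ.co y (α ⟨s, hs⟩))⁻¹) * g⁻¹ = s := e1.trans (by simp)
      rw [← mul_left_cancel_iff (a := g), ← mul_right_cancel_iff (a := g⁻¹), e3]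
      group
    rw [e2]
    exact T'.mul_mem hs (T'.inv_mem (hf.1 _))
  obtain ⟨y₀, hy₀, hZ⟩ := exists_reg D hG hT (coL τ T') h2
  have key : ∀ g ∈ G, (∀ s ∈ T', g⁻¹ * s * g ∈ T') → ∀ t ∈ T, g * t * g⁻¹ ∈ T := by
    intro g hg m t ht
    rw [← hZ, τ.mem_Z]
    refine ⟨G.mul_mem (G.mul_mem hg (hT.1.1 ht)) (G.inv_mem hg), fun a => ?_⟩
    have := τ.dg.comm (h1 (m _ (hy₀ a))) ht
    calc _ = g * (g⁻¹ * τ.co y₀ a * g * t) * g⁻¹ := by group
      _ = _ := by rw [this]; group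
  obtain ⟨a, a', ha⟩ := τ.exists_act (key g (hH hg) m2)
    (by simpa only [inv_inv] using key g⁻¹ (G.inv_mem (hH hg)) (by simpa only [inv_inv] using m1))
  have ea : ∀ z ∈ coL τ T', a' z = z - (D.P.root i ⬝ᵥ z) • y := fun z hz => τ.co_inj <| by
    funext b
    rw [← ha.co, hgt ⟨_, hz b⟩, hco z hz, sub_eq_add_neg, τ.co_add, τ.co_neg, τ.co_zsmul]
  obtain ⟨g', -, b, b', hb, eb⟩ := refl' D i
  obtain ⟨m, hm, -, e⟩ := (ha.mul hb).finite_order
  have e1 := ea y hf.1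
  have e2 := ea _ (h2 i)
  rw [hy2] at e1
  rw [dot_two] at e2
  have u1 : ∀ j : ℕ, (b'.trans a') (D.P.coroot i + (2 * j : ℤ) • (y - D.P.coroot i)) =
      D.P.coroot i + (2 * (j + 1 : ℕ) : ℤ) • (y - D.P.coroot i) := fun j => by
    rw [AddEquiv.trans_apply, eb, dotProduct_add, dotProduct_smul, dotProduct_sub, hy2, dot_two]
    simp only [map_sub, map_add, map_zsmul, e1, e2]
    push_cast
    module
  have u2 : ∀ j : ℕ, (b'.trans a' : τ.X → τ.X)^[j] (D.P.coroot i) =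
      D.P.coroot i + (2 * j : ℤ) • (y - D.P.coroot i) := fun j => by
    induction j with
    | zero => simp
    | succ j ih => rw [Function.iterate_succ_apply', ih, u1]
  have := (u2 m).symm.trans (e _)
  rw [add_eq_left, smul_eq_zero, sub_eq_zero] at this
  exact ⟨i, congrArg τ.co (this.resolve_left (by omega))⟩

theorem Pn.simplyConnected (hG : Red G) (hT : MaxTor G T) (h : SC ⁅G, G⁆) :
    SimplyConnected D.P := by
  intro m y hm hy
  have hL : Submodule.span ℤ (range D.P.coroot) ≤ (coL τ ⁅G, G⁆).toIntSubmodule :=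
    Submodule.span_le.2 (by rintro _ ⟨i, rfl⟩; exact D.co_coroot_mem i)
  have hyL : y ∈ coL τ ⁅G, G⁆ := fun a => by
    obtain ⟨b, hb⟩ := IsAlgClosed.exists_pow_nat_eq (a : k) (Int.natAbs_pos.2 hm)
    have hb0 : b ≠ 0 := fun h => a.ne_zero (by rw [← hb, h, zero_pow (by omega)])
    obtain rfl : a = Units.mk0 b hb0 ^ (m.natAbs : ℤ) := by
      rw [zpow_natCast]
      exact Units.ext hb.symm
    rw [← τ.co_zsmul]
    rcases Int.natAbs_eq m with e | e
    · exact hL (e ▸ hy) _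
    · refine (coL τ ⁅G, G⁆).neg_mem_iff.1 (hL ?_) _
      rwa [← neg_smul, ← e]
  obtain ⟨y₀, hy₀, hZ⟩ := exists_reg D hG hT (coL τ ⁅G, G⁆) D.co_coroot_mem
  have hS : ∀ z ∈ coL τ ⁅G, G⁆, τ.S z ≤ ⁅G, G⁆ := fun z hz g hg => by
    obtain ⟨a, rfl⟩ := τ.mem_S.1 hg
    exact hz a
  obtain ⟨T', h1, hT'⟩ := exists_maxTor ((τ.tor_S y).sup (τ.tor_S y₀) fun a ha b hb =>
    τ.dg.comm (τ.S_le _ ha) (τ.S_le _ hb)) (sup_le (hS y hyL) (hS y₀ hy₀))
  have h2 : T' ≤ T := fun t ht => by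
    rw [← hZ, τ.mem_Z]
    exact ⟨Subgroup.commutator_le_self G (hT'.1.1 ht), fun a => Dg.comm hT'.1.2.2
      (h1 ((le_sup_right : _ ≤ τ.S y ⊔ τ.S y₀) (τ.mem_S.2 ⟨a, rfl⟩))) ht⟩
  have h3 : ∀ i a, τ.co (D.P.coroot i) a ∈ T' := fun i a =>
    hT'.le_of_comm (τ.tor_S _) (hS _ (D.co_coroot_mem i))
      (fun a ha b hb => τ.dg.comm (τ.S_le _ ha) (h2 hb)) (τ.mem_S.2 ⟨a, rfl⟩)
  have h4 := h T' hT' (τ.co y) ⟨fun a => h1 ((le_sup_left : _ ≤ τ.S y ⊔ τ.S y₀)
    (τ.mem_S.2 ⟨a, rfl⟩)), (τ.coch y).2⟩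
  have key : ∀ f ∈ Subgroup.closure (coroots ⁅G, G⁆ T'),
      ∃ z ∈ Submodule.span ℤ (range D.P.coroot), f = τ.co z := by
    intro f hf
    induction hf using Subgroup.closure_induction with
    | mem f hf =>
      obtain ⟨i, rfl⟩ := D.eq_coroot hG hT (Subgroup.commutator_le_self G) h2 h3 hf
      exact ⟨_, Submodule.subset_span ⟨i, rfl⟩, rfl⟩
    | one => exact ⟨0, zero_mem _, funext fun a => (τ.co_zero a).symm⟩
    | mul f g _ _ hf hg =>
      obtain ⟨z, hz, rfl⟩ := hf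
      obtain ⟨z', hz', rfl⟩ := hg
      exact ⟨z + z', add_mem hz hz', funext fun a => (τ.co_add z z' a).symm⟩
    | inv f _ hf =>
      obtain ⟨z, hz, rfl⟩ := hf
      exact ⟨-z, neg_mem hz, funext fun a => (τ.co_neg z a).symm⟩
  obtain ⟨z, hz, e⟩ := key _ h4
  rwa [τ.co_inj e]

theorem Pn.goodPrime {p : ℕ} (h : Good G T p) (hp : p.Prime) (b : D.P.Base) :
    GoodPrime D.P b p := by
  classical
  rintro β m hβ i ⟨q, hq⟩
  have hr : ∀ j, τ.χ (D.P.root j) ∈ roots G T := fun j =>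
    τ.mem_roots_iff.2 ⟨_, D.range_root ▸ ⟨j, rfl⟩, rfl⟩
  let S : Set (T →* kˣ) :=
    insert (τ.χ (D.P.root β)) {γ | ∃ j : b.support, j ≠ i ∧ γ = τ.χ (D.P.root j)}
  let K : AddSubgroup τ.X :=
    { carrier := {v | τ.χ v ∈ Subgroup.closure S}
      add_mem' := fun hv hw => by rw [mem_ofPred_eq, τ.χ_add]; exact mul_mem hv hw
      zero_mem' := by rw [mem_ofPred_eq, τ.χ_zero]; exact one_mem _
      neg_mem' := fun hv => by rw [mem_ofPred_eq, τ.χ_neg]; exact inv_mem hv }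
  have h1 : m i • D.P.root i ∈ K := by
    rw [← Finset.add_sum_erase _ _ (Finset.mem_univ i), ← sub_eq_iff_eq_add] at hβ
    rw [← hβ]
    refine K.sub_mem ?_ (K.sum_mem fun j hj => K.zsmul_mem ?_ _)
    · exact Subgroup.subset_closure (k := S) (Or.inl rfl)
    · exact Subgroup.subset_closure (k := S) (Or.inr ⟨j, Finset.ne_of_mem_erase hj, rfl⟩)
  have h2 := h S (by rintro _ (rfl | ⟨j, -, rfl⟩) <;> exact hr _) (τ.χ (q • D.P.root i))
    (by rw [τ.χ_zsmul]; exact zpow_mem (Subgroup.subset_closure (hr _)) _)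
    (by
      have e := (τ.χ_zsmul p (q • D.P.root i)).trans
        (zpow_natCast (τ.χ (q • D.P.root i)) p)
      rw [smul_smul, ← hq] at e
      exact (congrArg (· ∈ Subgroup.closure S) e).mp h1)
  have key : ∀ γ ∈ Subgroup.closure S, ∃ c : b.support → ℤ,
      γ = τ.χ (∑ j, c j • D.P.root j.1) ∧ m i ∣ c i := by
    intro γ hγ
    induction hγ using Subgroup.closure_induction with
    | mem γ hγ =>
      rcases hγ with rfl | ⟨j, hj, rfl⟩
      · exact ⟨m, by rw [hβ], dvd_rfl⟩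
      · exact ⟨Pi.single j 1, by simp [Pi.single_apply], by simp [hj.symm]⟩
    | one => exact ⟨0, by simp [τ.χ_zero], by simp⟩
    | mul f g _ _ hf hg =>
      obtain ⟨c, rfl, hc⟩ := hf
      obtain ⟨c', rfl, hc'⟩ := hg
      exact ⟨c + c', by simp only [Pi.add_apply, add_smul, Finset.sum_add_distrib, τ.χ_add],
        dvd_add hc hc'⟩
    | inv f _ hf =>
      obtain ⟨c, rfl, hc⟩ := hf
      exact ⟨-c, by simp only [Pi.neg_apply, neg_smul, Finset.sum_neg_distrib, τ.χ_neg],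
        hc.neg_right⟩
  obtain ⟨c, e, hc⟩ := key _ h2
  have e' := τ.χ_inj e
  have li : LinearIndependent ℤ fun j : b.support => D.P.root j.1 := b.linearIndepOn_root
  have e2 := Fintype.linearIndependent_iff.1 li (c - Pi.single i q) (by
    simp only [Pi.sub_apply, sub_smul, Finset.sum_sub_distrib, ← e']
    simp [Pi.single_apply]) i
  rw [Pi.sub_apply, Pi.single_eq_same, sub_eq_zero] at e2
  rw [e2, hq] at hc
  by_contra h0
  have hq0 : q ≠ 0 := fun e => h0 (by rw [hq, e, mul_zero])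
  have : (p : ℤ) ∣ 1 := (mul_dvd_mul_iff_right hq0).1 (by rwa [one_mul])
  exact hp.not_dvd_one (by exact_mod_cast this)

end Pool.Agent.AG
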