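import Pool.Agent.P.MP_bf0464_al.Br.Chev
import Pool.Agent.P.MP_bf0464_al.Br.Hyp

/-! The bound of Humphreys for the Lie algebra of a reductive group. -/

namespace Pool.Agent.AG

open Set Matrix Pool.Agent.P.Bf04.Old

attribute [local instance 100] LieRing.ofAssociativeRing

universe u

private theorem blocks_le {k : Type u} [Field k] [IsAlgClosed k] [Fact (ringChar k).Prime]
    {n : ℕ} (G T B : Subgroup (GL (Fin n) k)) (hG : Red G) (hT : MaxTor G T) (hB : Borel G B)
    (hTB : T ≤ B) (hsc : SC ⁅G, G⁆) (hp : Good G T (ringChar k)) (χ : lie G →ₗ[k] k)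
    (hχ : ∀ x : lie G, x.1 ∈ lie B → χ x = 0) :
    BlocksBounded (RedEnv (ringChar k) (pmap (ringChar k) G) χ)
      (T.relIndex (G ⊓ Subgroup.normalizer (T : Set (GL (Fin n) k)))) := by
  obtain ⟨τ⟩ := hT.1.2.exists_TD
  obtain ⟨D⟩ := exists_Pn τ hG hT
  obtain ⟨y, hy, hBy⟩ := D.exists_of_borel hG hT hB hTB
  obtain ⟨b, hb⟩ := D.exists_base' hy
  have hH : ∀ z, τ.H z ∈ lie G := fun z => lie_mono hT.1.1 (τ.H_mem_lie z)
  let H : τ.X →+ lie G := τ.H.codRestrict (lie G).toSubmodule.toAddSubgroup hH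
  let E : D.ι → lie G := fun i => ⟨D.e i, (D.rh i).mem_lie⟩
  have W := D.wc hG hT
  have hw : WC D.P (Pi.basisFun ℤ (Fin τ.r)) k H E := by
    refine ⟨LinearIndependent.of_comp (lie G).toSubmodule.subtype ?_,
      fun z z' => Subtype.ext (W.h_h z z'), fun z i => Subtype.ext (W.h_e z i),
      fun i j h => Subtype.ext (W.e_neg i j h), fun i j l h => ?_,
      fun i j h h' => Subtype.ext (W.e_zero i j h h')⟩
    · convert W.li using 1
      funext a
      rcases a with a | a <;> rfl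
    · obtain ⟨N, hN⟩ := W.e_e i j l h
      exact ⟨N, Subtype.ext hN⟩
  have hs : Submodule.span k (range H ∪ range E) = ⊤ := by
    refine Submodule.map_injective_of_injective (lie G).toSubmodule.injective_subtype ?_
    rw [Submodule.map_span, Submodule.map_subtype_top, image_union, ← range_comp, ← range_comp]
    ext A
    exact (D.mem_lie_iff_span hG hT).symm
  have hgood := D.goodPrime hp Fact.out b
  obtain ⟨L, _, h, e, f, hL, hf, h1, h2⟩ := hw.exists_form D.P b _ hs
    (nz_of_good b (ringChar k) hgood)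
  rw [← D.card_weyl hG hT]
  refine result (ringChar k) D.P b (D.simplyConnected hG hT hsc) hgood h e hL f hf _
    (fun z => ?_) (fun i => ?_) χ ⟨fun z => ?_, fun i hi => ?_⟩
  · rw [h1]
    exact Subtype.ext (τ.H_pow z)
  · obtain ⟨s, hs⟩ := h2 i
    rw [hs]
    refine Subtype.ext ?_
    change (s • D.e i) ^ ringChar k = 0
    rw [smul_pow, D.e_pow hG hT, smul_zero]
  · rw [h1]
    exact hχ _ (lie_mono hTB (τ.H_mem_lie z))
  · obtain ⟨s, hs⟩ := h2 i
    rw [hs, map_smul, hχ (E i), smul_zero]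
    refine (D.x_mem_iff hG hT hB.1.2.1.closed (Nm.of_le hTB) hB.1.1 i).1 fun c => ?_
    rw [hBy]
    exact (le_sup_right : _ ≤ T ⊔ τ.U G y) (D.x_mem_GX (sga_pos y) ((hb i).1 hi) c)

theorem blocks_main {k : Type u} [Field k] [IsAlgClosed k] (p : ℕ) [Fact p.Prime] [CharP k p]
    {n : ℕ} (G T B : Subgroup (GL (Fin n) k)) (hG : Red G) (hT : MaxTor G T) (hB : Borel G B)
    (hsc : SC ⁅G, G⁆) (hp : Good G T p) (χ : lie G →ₗ[k] k)
    (hχ : ∀ x : lie G, x.1 ∈ lie B → χ x = 0) :
    BlocksBounded (RedEnv p (pmap p G) χ)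
      (T.relIndex (G ⊓ Subgroup.normalizer (T : Set (GL (Fin n) k)))) := by
  obtain rfl : ringChar k = p := ringChar.eq k p
  obtain ⟨g, hg, h⟩ := hB.exists_cj_le hG.1 hT
  have hT' : MaxTor G (cj g T) := by simpa only [cj_eq_self hg] using hT.conjg g
  rw [← relIndex_cj hg]
  exact blocks_le G _ B hG hT' hB h hsc (good_cj hp hg) χ hχ

end Pool.Agent.AG
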