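import Pool.Agent.P.MP_bf0464_al.H.HMain
import Pool.Agent.P.MP_bf0464_al.H.FinA
import Pool.Agent.P.MP_bf0464_al.H.FinC

/-! The bound of Humphreys for the Lie algebras of all reductive groups with simply connected
derived group in good characteristic. -/

namespace Pool.Agent.P.Bf04.Old

attribute [local instance 100] LieRing.ofAssociativeRing

universe u v w

section Roots

variable {ι : Type} {X : Type v} {Y : Type w} [Fintype ι] [AddCommGroup X] [AddCommGroup Y]

/-- The derived group is simply connected: the cocharacter lattice modulo the coroot lattice is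
torsion free. -/
def SimplyConnected (P : RootDatum ι X Y) : Prop :=
  ∀ (m : ℤ) (y : Y), m ≠ 0 → m • y ∈ Submodule.span ℤ (Set.range P.coroot) →
    y ∈ Submodule.span ℤ (Set.range P.coroot)

/-- `p` is good: it divides no nonzero coefficient of a root written in the simple roots. -/
def GoodPrime (P : RootDatum ι X Y) (b : P.Base) (p : ℕ) : Prop :=
  ∀ (β : ι) (m : b.support → ℤ), P.root β = ∑ i, m i • P.root i.1 → ∀ i, (p : ℤ) ∣ m i → m i = 0

/-- `L` is the Chevalley form over the integers of the Lie algebra with root datum `P`: it is the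
direct sum of `Y` and of the lines spanned by the root vectors, with the Chevalley relations. -/
structure IsChevalley (P : RootDatum ι X Y) {L : Type*} [LieRing L] (h : Y →+ L) (e : ι → L) :
    Prop where
  basis : Function.Bijective fun x : Y × (ι → ℤ) => h x.1 + ∑ i, x.2 i • e i
  h_h : ∀ y y', ⁅h y, h y'⁆ = 0
  h_e : ∀ y i, ⁅h y, e i⁆ = P.toLinearMap (P.root i) y • e i
  e_neg : ∀ i j, P.root j = -P.root i → ⁅e i, e j⁆ = h (P.coroot i)
  e_e : ∀ i j l, P.root i + P.root j = P.root l →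
    ⁅e i, e j⁆ = (P.chainBotCoeff i j + 1) • e l ∨ ⁅e i, e j⁆ = -((P.chainBotCoeff i j + 1) • e l)
  e_zero : ∀ i j, P.root i + P.root j ≠ 0 → P.root i + P.root j ∉ Set.range P.root →
    ⁅e i, e j⁆ = 0

end Roots

section Env

variable {k g : Type u} [Field k] [LieRing g] [LieAlgebra k g]

/-- The relations `x ^ p = x ^ [p] + χ(x) ^ p` in the universal enveloping algebra. -/
def Rel (p : ℕ) (pm : g → g) (χ : g →ₗ[k] k) (a b : UniversalEnvelopingAlgebra k g) : Prop :=
  ∃ x : g, a = UniversalEnvelopingAlgebra.ι k x ^ p ∧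
    b = UniversalEnvelopingAlgebra.ι k (pm x) + algebraMap k _ (χ x ^ p)

/-- The reduced enveloping algebra `u(g, χ)`. -/
abbrev RedEnv (p : ℕ) (pm : g → g) (χ : g →ₗ[k] k) : Type u := RingQuot (Rel p pm χ)

/-- A block: an indecomposable two-sided ideal that is a direct summand. -/
def IsBlock {A : Type u} [Ring A] (B : TwoSidedIdeal A) : Prop :=
  B ≠ ⊥ ∧ (∃ C, IsCompl B C) ∧ ∀ I J : TwoSidedIdeal A, Disjoint I J → I ⊔ J = B → I = ⊥ ∨ J = ⊥

/-- Every block of `A` contains at most `n` isomorphism classes of simple modules; a simple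
module `S` lies in the block `B` when `B S ≠ 0`. -/
def BlocksBounded (A : Type u) [Ring A] (n : ℕ) : Prop :=
  ∀ B : TwoSidedIdeal A, IsBlock B → ∀ (N : ℕ) (S : Fin N → Type u) [∀ i, AddCommGroup (S i)]
    [∀ i, Module A (S i)] [∀ i, IsSimpleModule A (S i)], (∀ i, ∃ b ∈ B, ∃ m : S i, b • m ≠ 0) →
      (∀ i j, Nonempty (S i ≃ₗ[A] S j) → i = j) → N ≤ n

end Env

open Pool.Agent.P.Bf04 in
theorem result {k : Type u} [Field k] [IsAlgClosed k] (p : ℕ) [Fact p.Prime] [CharP k p]
    {ι : Type} {X : Type v} {Y : Type w} [Fintype ι] [AddCommGroup X] [AddCommGroup Y]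
    [Module.Finite ℤ X] [Module.Finite ℤ Y] (P : RootDatum ι X Y) [P.IsReduced] (b : P.Base)
    (hsc : SimplyConnected P) (hp : GoodPrime P b p)
    {L : Type} [LieRing L] (h : Y →+ L) (e : ι → L) (hL : IsChevalley P h e)
    {g : Type u} [LieRing g] [LieAlgebra k g] (f : L →ₗ⁅ℤ⁆ g)
    (hf : IsBaseChange k (f : L →ₗ[ℤ] g))
    (pm : g → g) (hh : ∀ y, pm (f (h y)) = f (h y)) (he : ∀ i, pm (f (e i)) = 0)
    (χ : g →ₗ[k] k) (hχ : (∀ y, χ (f (h y)) = 0) ∧ ∀ i, b.IsPos i → χ (f (e i)) = 0) :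
    BlocksBounded (RedEnv p pm χ) (Nat.card P.weylGroup) := by
  classical
  obtain ⟨n, ⟨c⟩⟩ := exists_basis P
  have H : Chev P h e := ⟨hL.1, hL.2, hL.3, hL.4, hL.5, hL.6⟩
  obtain ⟨φ, h1, h2⟩ := H.exists_equiv b c hsc f hf
  have hw : (H.toCD b c hsc).wn = Nat.card P.weylGroup := toRD_wn P b c hsc
  intro B hB N S _ _ _ hS hiso
  have hs : (H.toCD b c hsc).Std fun x => χ (φ ((H.toCD b c hsc).bv k x)) :=
    ⟨fun a => (congrArg χ (h1 a)).trans (hχ.1 _),
      fun β hβ => (congrArg χ (h2 β)).trans (hχ.2 β ((toRD_pos P b c hsc β).1 hβ))⟩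
  have hb := CD.hum_all.{u} (H.toCD b c hsc) (toRD_good P b c hsc hp) k _ hs
  let γ : g →ₗ⁅k⁆ RedEnv p pm χ :=
    (RingQuot.mkAlgHom k (Rel p pm χ)).toLieHom.comp (UniversalEnvelopingAlgebra.ι k)
  have rel : ∀ x, γ x ^ p = γ (pm x) + algebraMap k _ (χ x ^ p) := fun x => by
    have := RingQuot.mkAlgHom_rel k (s := Rel p pm χ) ⟨x, rfl, rfl⟩
    rwa [map_pow, map_add, AlgHom.commutes] at this
  have := CD.count_block hs hb (γ.comp φ.toLieHom)
    (fun Q hQ => env_gen _ (RingQuot.mkAlgHom_surjective k _) Q fun x => by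
      obtain ⟨y, rfl⟩ := φ.surjective x
      exact hQ y)
    (fun x => ?_) B hB.2.2 S hS hiso
  · rwa [Nat.div_one, hw] at this
  · refine (rel _).trans (congrArg (fun y => γ y + _) ?_)
    rcases x with a | β
    · exact (congrArg pm (h1 a)).trans ((hh _).trans (h1 a).symm)
    · exact (congrArg pm (h2 β)).trans ((he β).trans (map_zero φ).symm)

end Pool.Agent.P.Bf04.Old
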